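import Pool.Agent.Q19.WS.Part2
import Pool.Agent.Q19.WS.Main

/-!
# Partitions of `[2k+1]` without blocks of size `k`: a wedge of spheres of dimension `2k - 3`

For `k ≥ 3` the order complex of the proper part of the poset of the partitions of a set of `2k + 1`
elements without blocks of size exactly `k` is homotopy equivalent to a wedge of spheres of dimension
`2k - 3`.
-/

namespace Pool.Agent.Results.MP_53e7c4_co.WedgeOfSpheres

/-- No block of the partition `s` of `{0, ..., n - 1}` has exactly `k` elements. -/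
def Avoids (k : ℕ) {n : ℕ} (s : Setoid (Fin n)) : Prop := ∀ B ∈ s.classes, B.ncard ≠ k

/-- The order complex of the proper part of the poset of the partitions of `{0, ..., n - 1}` without
blocks of size `k`, as a topological space: the convex combinations `x` (with weights `x s`) of the
partitions `s` of a chain of this poset; the partition `⊥` into singletons and the partition `⊤` with
one block are left out. -/
def OrderComplex (n k : ℕ) : Set (Setoid (Fin n) → ℝ) :=
  {x | (∀ s, 0 ≤ x s) ∧ (∀ s, x s ≠ 0 → Avoids k s ∧ s ≠ ⊥ ∧ s ≠ ⊤) ∧ (∑ᶠ s, x s) = 1 ∧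
    ∀ s t, x s ≠ 0 → x t ≠ 0 → s ≤ t ∨ t ≤ s}

/-- The wedge (one-point union) of `m` spheres of dimension `d`, as a subspace of their product: at
most one coordinate is different from the base point `(1, 0, ..., 0)` of the unit sphere. -/
def Wedge (m d : ℕ) : Set (Fin m → Fin (d + 1) → ℝ) :=
  {y | (∀ i, ∑ j, y i j ^ 2 = 1) ∧
    ∀ i i', i ≠ i' → y i = Pi.single 0 1 ∨ y i' = Pi.single 0 1}

open Pool.Agent.Q19.WS in
theorem avoids_iff (k : ℕ) {n : ℕ} (s : Setoid (Fin n)) : Avoids k s ↔ Good k s := by
  constructor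
  · intro h i
    refine h _ ⟨i, ?_⟩
    ext j
    exact ⟨fun h' => s.symm h', fun h' => s.symm h'⟩
  · rintro h B ⟨i, rfl⟩
    have : {x | s x i} = bl s i := by
      ext j
      exact ⟨fun h' => s.symm h', fun h' => s.symm h'⟩
    rw [this]
    exact h i

open Classical Pool.Agent.Q19.WS in
/-- For every `k ≥ 3` there is a number `m` such that the order complex of the proper part of the poset
of the partitions of `[2k+1]` without blocks of size `k` is homotopy equivalent to the wedge of `m`
spheres of dimension `2k - 3`. -/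
theorem result (k : ℕ) (hk : 3 ≤ k) :
    ∃ m : ℕ, Nonempty (ContinuousMap.HomotopyEquiv (OrderComplex (2 * k + 1) k)
      (Wedge m (2 * k - 3))) := by
  have : Fintype (Setoid (Fin (2 * k + 1))) := Fintype.ofFinite _
  have hb := bld_main (α := Fin (2 * k + 1)) (k := k) (by simp) (by omega)
  have hb' := Bld.mono (C' := fun m => m = (2 * k - 3) + 1) (fun m hm => by omega) hb
  have hne : (Ch {y : Setoid (Fin (2 * k + 1)) | Good k y ∧ y ≠ ⊥ ∧ y ≠ ⊤}).Nonempty :=
    ⟨∅, fun a ha => absurd ha (Finset.notMem_empty _), fun a ha => absurd ha (Finset.notMem_empty _)⟩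
  obtain ⟨m, ⟨e⟩⟩ := hb'.wedge hne
  have he : OrderComplex (2 * k + 1) k =
      Rl (Ch {y : Setoid (Fin (2 * k + 1)) | Good k y ∧ y ≠ ⊥ ∧ y ≠ ⊤}) := by
    ext x
    unfold OrderComplex Rl
    rw [Set.mem_setOf_eq, Set.mem_setOf_eq, finsum_eq_sum_of_fintype]
    constructor
    · rintro ⟨h0, h1, h2, h3⟩
      refine ⟨h0, h2, ?_, ?_⟩
      · intro s hs
        rw [mem_supp] at hs
        obtain ⟨h4, h5, h6⟩ := h1 s hs
        exact ⟨(avoids_iff k s).1 h4, h5, h6⟩
      · intro s hs t ht
        rw [mem_supp] at hs ht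
        exact h3 s t hs ht
    · rintro ⟨h0, h2, h1, h3⟩
      refine ⟨h0, ?_, h2, ?_⟩
      · intro s hs
        obtain ⟨h4, h5, h6⟩ := h1 s (mem_supp.2 hs)
        exact ⟨(avoids_iff k s).2 h4, h5, h6⟩
      · intro s t hs ht
        exact h3 s (mem_supp.2 hs) t (mem_supp.2 ht)
  refine ⟨m, ⟨?_⟩⟩
  rw [he]
  exact e

end Pool.Agent.Results.MP_53e7c4_co.WedgeOfSpheres
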